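import Mathlib.Topology.Constructions

namespace Pool.Agent.MP_2e1455_lc

/-- The shift on configurations: `shift x i = x (i + 1)`. -/
def shift {S : Type*} (x : ℤ → S) : ℤ → S := fun i => x (i + 1)

/-- A cellular automaton: a continuous self-map of `ℤ → S` (product topology) commuting with
the shift. -/
def IsCA {S : Type*} [TopologicalSpace S] (f : (ℤ → S) → (ℤ → S)) : Prop :=
  Continuous f ∧ ∀ x, f (shift x) = shift (f x)

/-- The set of left-closing cellular automata: no two distinct configurations that agree at all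
sufficiently large positions have the same image. -/
def leftClosing (S : Type*) [TopologicalSpace S] : Set ((ℤ → S) → (ℤ → S)) :=
  {f | IsCA f ∧ ¬ ∃ x y : ℤ → S, x ≠ y ∧ (∃ N : ℤ, ∀ i : ℤ, N ≤ i → x i = y i) ∧ f x = f y}

/-- The set of right-closing cellular automata: no two distinct configurations that agree at all
sufficiently small positions have the same image. -/
def rightClosing (S : Type*) [TopologicalSpace S] : Set ((ℤ → S) → (ℤ → S)) :=
  {f | IsCA f ∧ ¬ ∃ x y : ℤ → S, x ≠ y ∧ (∃ N : ℤ, ∀ i : ℤ, i ≤ N → x i = y i) ∧ f x = f y}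

/-- The set of composites `f ∘ g` with `f ∈ A` and `g ∈ B`. -/
def compSet {X : Type*} (A B : Set (X → X)) : Set (X → X) :=
  {h | ∃ f ∈ A, ∃ g ∈ B, h = f ∘ g}

/-- The pair of levels `(L_k, R_k)` of the closing hierarchy:
`L_0 = R_0 = {id}`, `L_(k+1) = leftClosing ∘ R_k`, `R_(k+1) = rightClosing ∘ L_k`. -/
def levels (S : Type*) [TopologicalSpace S] :
    ℕ → Set ((ℤ → S) → (ℤ → S)) × Set ((ℤ → S) → (ℤ → S))
  | 0 => ({id}, {id})
  | k + 1 => (compSet (leftClosing S) (levels S k).2, compSet (rightClosing S) (levels S k).1)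

/-- Level `L_k` of the closing hierarchy. -/
def levelL (S : Type*) [TopologicalSpace S] (k : ℕ) : Set ((ℤ → S) → (ℤ → S)) :=
  (levels S k).1

/-- Level `R_k` of the closing hierarchy. -/
def levelR (S : Type*) [TopologicalSpace S] (k : ℕ) : Set ((ℤ → S) → (ℤ → S)) :=
  (levels S k).2

/-- The whole hierarchy `H`, the union of the levels `L_k`. -/
def hierarchy (S : Type*) [TopologicalSpace S] : Set ((ℤ → S) → (ℤ → S)) :=
  ⋃ k : ℕ, levelL S k

end Pool.Agent.MP_2e1455_lc
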