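import Mathlib.Topology.NoetherianSpace
import Mathlib.Algebra.Field.ZMod
import Mathlib.Data.Int.Star
import Mathlib.Algebra.Order.Ring.Star
import Mathlib.Topology.Connected.Separation
import Mathlib.Order.CompletePartialOrder
import Mathlib.Topology.Separation.Lemmas
import Pool.Agent.MP_2e1455_lc.Defs

-- ======== part 0: formerly Pool.Agent.MP_2e1455_lc.Basic
section MrgPart0

namespace Pool.Agent.MP_2e1455_lc

open Filter Topology

/-- Translation of a configuration by `n`. -/
def tr {α : Type*} (n : ℤ) (x : ℤ → α) : ℤ → α := fun i => x (i + n)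

@[simp] lemma tr_apply {α : Type*} (n : ℤ) (x : ℤ → α) (i : ℤ) : tr n x i = x (i + n) := rfl

lemma tr_zero {α : Type*} (x : ℤ → α) : tr 0 x = x := by
  funext i; simp

lemma tr_tr {α : Type*} (m n : ℤ) (x : ℤ → α) : tr m (tr n x) = tr (m + n) x := by
  funext i; simp [add_assoc]

lemma tr_injective {α : Type*} (n : ℤ) : Function.Injective (tr n : (ℤ → α) → (ℤ → α)) := by
  intro x y h
  have := congrArg (tr (-n)) h
  simpa [tr_tr, tr_zero] using this

lemma shift_eq_tr {α : Type*} (x : ℤ → α) : shift x = tr 1 x := rfl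

lemma continuous_tr {α : Type*} [TopologicalSpace α] (n : ℤ) :
    Continuous (tr n : (ℤ → α) → (ℤ → α)) :=
  continuous_pi fun i => continuous_apply (i + n)

/-- Agreement far out in direction `d`. -/
def Asym {α : Type*} (d : ℤ) (x y : ℤ → α) : Prop := ∃ N : ℤ, ∀ i : ℤ, N ≤ d * i → x i = y i

lemma Asym.refl {α : Type*} (d : ℤ) (x : ℤ → α) : Asym d x x := ⟨0, fun _ _ => rfl⟩

lemma Asym.symm {α : Type*} {d : ℤ} {x y : ℤ → α} (h : Asym d x y) : Asym d y x := by
  obtain ⟨N, hN⟩ := h
  exact ⟨N, fun i hi => (hN i hi).symm⟩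

lemma Asym.trans {α : Type*} {d : ℤ} {x y z : ℤ → α} (h : Asym d x y) (h' : Asym d y z) :
    Asym d x z := by
  obtain ⟨N, hN⟩ := h
  obtain ⟨M, hM⟩ := h'
  exact ⟨max N M, fun i hi =>
    (hN i (le_trans (le_max_left _ _) hi)).trans (hM i (le_trans (le_max_right _ _) hi))⟩

lemma exists_radius {T β : Type*} [TopologicalSpace T] [DiscreteTopology T] [Finite T]
    [TopologicalSpace β] [DiscreteTopology β] (f : (ℤ → T) → β) (hf : Continuous f) :
    ∃ r : ℕ, ∀ x y : ℤ → T, (∀ i : ℤ, |i| ≤ r → x i = y i) → f x = f y := by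
  by_contra hcon
  push Not at hcon
  let t : ℕ → Set ((ℤ → T) × (ℤ → T)) := fun r =>
    {p | (∀ i : ℤ, |i| ≤ r → p.1 i = p.2 i) ∧ f p.1 ≠ f p.2}
  have hcl : ∀ r, IsClosed (t r) := by
    intro r
    have h1 : IsClosed {p : (ℤ → T) × (ℤ → T) | ∀ i : ℤ, |i| ≤ r → p.1 i = p.2 i} := by
      simp only [Set.ofPred_forall]
      refine isClosed_iInter fun i => isClosed_iInter fun _ => ?_
      exact isClosed_eq ((continuous_apply i).comp continuous_fst)
        ((continuous_apply i).comp continuous_snd)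
    have h2 : IsClosed {p : (ℤ → T) × (ℤ → T) | f p.1 ≠ f p.2} := by
      have hc : Continuous fun p : (ℤ → T) × (ℤ → T) => (f p.1, f p.2) :=
        (hf.comp continuous_fst).prodMk (hf.comp continuous_snd)
      exact (isClosed_discrete {q : β × β | q.1 ≠ q.2}).preimage hc
    exact h1.inter h2
  have hne : ∀ r, (t r).Nonempty := by
    intro r
    obtain ⟨x, y, h1, h2⟩ := hcon r
    exact ⟨(x, y), h1, h2⟩
  have hdec : ∀ r, t (r + 1) ⊆ t r := by
    intro r p hp
    refine ⟨fun i hi => hp.1 i ?_, hp.2⟩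
    push_cast
    omega
  obtain ⟨p, hp⟩ := IsCompact.nonempty_iInter_of_sequence_nonempty_isCompact_isClosed t hdec hne
    (hcl 0).isCompact hcl
  rw [Set.mem_iInter] at hp
  have : p.1 = p.2 := by
    funext i
    exact (hp i.natAbs).1 i (by simp)
  exact (hp 0).2 (by rw [this])

lemma continuous_of_radius {T β : Type*} [TopologicalSpace T] [DiscreteTopology T]
    [TopologicalSpace β] (f : (ℤ → T) → β) (a b : ℤ)
    (h : ∀ x y : ℤ → T, (∀ i : ℤ, a ≤ i → i ≤ b → x i = y i) → f x = f y) : Continuous f := by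
  rw [continuous_iff_continuousAt]
  intro x
  have hev : ∀ᶠ y in 𝓝 x, ∀ i ∈ Finset.Icc a b, y i = x i := by
    rw [Filter.eventually_all_finset]
    intro i _
    have hc : Continuous fun y : ℤ → T => y i := continuous_apply i
    have : IsOpen {y : ℤ → T | y i = x i} := (isOpen_discrete {x i}).preimage hc
    exact this.mem_nhds rfl
  have : f =ᶠ[𝓝 x] fun _ => f x := by
    filter_upwards [hev] with y hy
    exact h y x fun i h1 h2 => hy i (Finset.mem_Icc.2 ⟨h1, h2⟩)
  exact (continuousAt_const.congr this.symm)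

section
variable {S : Type*} [TopologicalSpace S]

lemma IsCA.tr {f : (ℤ → S) → (ℤ → S)} (hf : IsCA f) (n : ℤ) (x : ℤ → S) :
    f (tr n x) = tr n (f x) := by
  have h1 : ∀ x, f (MP_2e1455_lc.tr 1 x) = MP_2e1455_lc.tr 1 (f x) := hf.2
  induction n using Int.induction_on generalizing x with
  | zero => simp [tr_zero]
  | succ n ih =>
    rw [add_comm, ← tr_tr, ← tr_tr, h1, ih]
  | pred n ih =>
    apply tr_injective 1
    rw [← h1, tr_tr, tr_tr]
    have : (1 : ℤ) + (-(n : ℤ) - 1) = -(n : ℤ) := by ring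
    rw [this, ih]

lemma isCA_id : IsCA (id : (ℤ → S) → (ℤ → S)) := ⟨continuous_id, fun _ => rfl⟩

lemma IsCA.comp {f g : (ℤ → S) → (ℤ → S)} (hf : IsCA f) (hg : IsCA g) : IsCA (f ∘ g) :=
  ⟨hf.1.comp hg.1, fun x => by simp only [Function.comp]; rw [hg.2, hf.2]⟩

/-- Closing in direction `d`. -/
def Closing (d : ℤ) (f : (ℤ → S) → (ℤ → S)) : Prop :=
  IsCA f ∧ ∀ x y, Asym d x y → f x = f y → x = y

lemma mem_leftClosing {f : (ℤ → S) → (ℤ → S)} : f ∈ leftClosing S ↔ Closing 1 f := by
  unfold leftClosing Closing Asym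
  simp only [Set.mem_ofPred_eq, one_mul]
  refine and_congr_right fun _ => ⟨fun h x y hxy hf => ?_, fun h ⟨x, y, hne, hxy, hf⟩ => ?_⟩
  · by_contra hne
    exact h ⟨x, y, hne, hxy, hf⟩
  · exact hne (h x y hxy hf)

lemma mem_rightClosing {f : (ℤ → S) → (ℤ → S)} : f ∈ rightClosing S ↔ Closing (-1) f := by
  unfold rightClosing Closing Asym
  simp only [Set.mem_ofPred_eq]
  refine and_congr_right fun _ => ⟨fun h x y ⟨N, hxy⟩ hf => ?_, fun h ⟨x, y, hne, ⟨N, hxy⟩, hf⟩ => ?_⟩
  · by_contra hne
    exact h ⟨x, y, hne, ⟨-N, fun i hi => hxy i (by omega)⟩, hf⟩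
  · exact hne (h x y ⟨-N, fun i hi => hxy i (by omega)⟩ hf)

lemma mem_levelL_succ {k : ℕ} {f : (ℤ → S) → (ℤ → S)} :
    f ∈ levelL S (k + 1) ↔ ∃ c, Closing 1 c ∧ ∃ g ∈ levelR S k, f = c ∘ g := by
  simp only [levelL, levelR, levels, compSet, Set.mem_ofPred_eq, mem_leftClosing]

lemma mem_levelR_succ {k : ℕ} {f : (ℤ → S) → (ℤ → S)} :
    f ∈ levelR S (k + 1) ↔ ∃ c, Closing (-1) c ∧ ∃ g ∈ levelL S k, f = c ∘ g := by
  simp only [levelL, levelR, levels, compSet, Set.mem_ofPred_eq, mem_rightClosing]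

lemma mem_levelL_zero {f : (ℤ → S) → (ℤ → S)} : f ∈ levelL S 0 ↔ f = id := by
  simp [levelL, levels]

lemma mem_levelR_zero {f : (ℤ → S) → (ℤ → S)} : f ∈ levelR S 0 ↔ f = id := by
  simp [levelR, levels]

lemma level_succ_cases {k : ℕ} {f : (ℤ → S) → (ℤ → S)}
    (h : f ∈ levelL S (k + 1) ∪ levelR S (k + 1)) :
    ∃ d c g, (d = 1 ∨ d = -1) ∧ Closing d c ∧ g ∈ levelL S k ∪ levelR S k ∧ f = c ∘ g := by
  rcases h with h | h
  · obtain ⟨c, hc, g, hg, rfl⟩ := mem_levelL_succ.1 h
    exact ⟨1, c, g, Or.inl rfl, hc, Or.inr hg, rfl⟩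
  · obtain ⟨c, hc, g, hg, rfl⟩ := mem_levelR_succ.1 h
    exact ⟨-1, c, g, Or.inr rfl, hc, Or.inl hg, rfl⟩

lemma isCA_of_mem_level : ∀ (k : ℕ) (f : (ℤ → S) → (ℤ → S)),
    f ∈ levelL S k ∪ levelR S k → IsCA f := by
  intro k
  induction k with
  | zero =>
    intro f hf
    rcases hf with hf | hf
    · rw [mem_levelL_zero.1 hf]; exact isCA_id
    · rw [mem_levelR_zero.1 hf]; exact isCA_id
  | succ k ih =>
    intro f hf
    obtain ⟨d, c, g, -, hc, hg, rfl⟩ := level_succ_cases hf
    exact hc.1.comp (ih g hg)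

variable {T : Type*} [TopologicalSpace T]

/-- Continuous maps that turn the shift into its sixth power. -/
structure Good (ψ : (ℤ → T) → (ℤ → S)) : Prop where
  cont : Continuous ψ
  comm : ∀ n x, ψ (tr n x) = tr (6 * n) (ψ x)

lemma Good.comp {ψ : (ℤ → T) → (ℤ → S)} (h : Good ψ) {c : (ℤ → S) → (ℤ → S)} (hc : IsCA c) :
    Good (c ∘ ψ) :=
  ⟨hc.1.comp h.cont, fun n x => by simp only [Function.comp]; rw [h.comm, hc.tr]⟩

lemma Good.asym [DiscreteTopology T] [Finite T] [DiscreteTopology S]
    {ψ : (ℤ → T) → (ℤ → S)} (h : Good ψ) {d : ℤ} (hd : d = 1 ∨ d = -1)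
    {x y : ℤ → T} (hxy : Asym d x y) : Asym d (ψ x) (ψ y) := by
  obtain ⟨r, hr⟩ := exists_radius (fun x => fun k : Fin 6 => ψ x (k : ℕ))
    (continuous_pi fun k => (continuous_apply _).comp h.cont)
  obtain ⟨N, hN⟩ := hxy
  refine ⟨6 * (N + r) + 6, fun j hj => ?_⟩
  have hk : (j % 6).toNat < 6 := by omega
  have key := congrFun (hr (tr (j / 6) x) (tr (j / 6) y) (fun i hi => by
    simp only [tr_apply]
    apply hN
    rw [abs_le] at hi
    rcases hd with rfl | rfl <;> omega)) ⟨(j % 6).toNat, hk⟩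
  simp only [h.comm, tr_apply] at key
  have e : (((j % 6).toNat : ℕ) : ℤ) + 6 * (j / 6) = j := by omega
  rwa [e] at key

/-- One closing factor can be removed from pairs that are asymptotic to identified pairs. -/
lemma Good.cancel [DiscreteTopology T] [Finite T] [DiscreteTopology S]
    {ψ : (ℤ → T) → (ℤ → S)} (h : Good ψ) {d : ℤ} (hd : d = 1 ∨ d = -1)
    {c : (ℤ → S) → (ℤ → S)} (hc : Closing d c) {x y x' y' : ℤ → T}
    (hx : Asym d x x') (hy : Asym d y y') (h' : ψ x' = ψ y') (hxy : c (ψ x) = c (ψ y)) :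
    ψ x = ψ y := by
  refine hc.2 _ _ ?_ hxy
  have h1 := h.asym hd hx
  have h2 := h.asym hd hy
  rw [h'] at h1
  exact h1.trans h2.symm

lemma Good.tr_eq {ψ : (ℤ → T) → (ℤ → S)} (h : Good ψ) {x y : ℤ → T} (hxy : ψ x = ψ y) (n : ℤ) :
    ψ (tr n x) = ψ (tr n y) := by
  rw [h.comm, h.comm, hxy]

/-- The peeling principle. -/
theorem peel (P : ℕ → ((ℤ → T) → (ℤ → S)) → Prop)
    (hP : ∀ k ψ c d, (d = 1 ∨ d = -1) → Good ψ → Closing d c → P (k + 1) (c ∘ ψ) → P k ψ)
    (e : (ℤ → T) → (ℤ → S)) (he : Good e) (h0 : ∀ k, ¬ P (k + 1) e) :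
    ∀ (n : ℕ) (f : (ℤ → S) → (ℤ → S)), f ∈ levelL S n ∪ levelR S n →
      ∀ k, n < k → ¬ P k (f ∘ e) := by
  intro n
  induction n with
  | zero =>
    intro f hf k hk
    have : f = id := by
      rcases hf with hf | hf
      · exact mem_levelL_zero.1 hf
      · exact mem_levelR_zero.1 hf
    subst this
    obtain ⟨k, rfl⟩ : ∃ j, k = j + 1 := ⟨k - 1, by omega⟩
    exact h0 k
  | succ n ih =>
    intro f hf k hk hPk
    obtain ⟨d, c, g, hd, hc, hg, rfl⟩ := level_succ_cases hf
    obtain ⟨k, rfl⟩ : ∃ j, k = j + 1 := ⟨k - 1, by omega⟩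
    exact ih g hg k (by omega)
      (hP k (g ∘ e) c d hd (he.comp (isCA_of_mem_level n g hg)) hc hPk)

end

end Pool.Agent.MP_2e1455_lc

end MrgPart0

-- ======== part 1: formerly Pool.Agent.MP_2e1455_lc.Code
section MrgPart1

namespace Pool.Agent.MP_2e1455_lc

open Filter Topology

instance optTop (A : Type*) : TopologicalSpace (Option A) := ⊥
instance optDisc (A : Type*) : DiscreteTopology (Option A) := ⟨rfl⟩

/-- A mutually unbordered code of length six for the letters of `A` over two letters of `S`. -/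
structure Code (A S : Type*) where
  s : Bool → S
  s_inj : Function.Injective s
  cw : A → Fin 6 → Bool
  cw_inj : Function.Injective cw
  cw_two : ∀ a, cw a 2 = true
  unb : ∀ a b : A, ∀ m : Fin 6, m ≠ 0 → ∃ k l : Fin 6, (l : ℕ) = k + m ∧ cw a l ≠ cw b k

namespace Code

variable {A S : Type*} (C : Code A S)

open Classical in
/-- Local decoding. -/
noncomputable def decLoc (w : Fin 6 → S) : Option A :=
  if h : ∃ a, ∀ k, w k = C.s (C.cw a k) then some h.choose else none

/-- Decoding of a configuration. -/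
noncomputable def dec (x : ℤ → S) : ℤ → Option A :=
  fun i => C.decLoc fun k : Fin 6 => x (i + (k : ℕ))

lemma dec_eq_some {x : ℤ → S} {i : ℤ} {a : A} :
    C.dec x i = some a ↔ ∀ k : Fin 6, x (i + (k : ℕ)) = C.s (C.cw a k) := by
  unfold dec decLoc
  split_ifs with h
  · have hs := h.choose_spec
    constructor
    · intro h1
      rw [Option.some.injEq] at h1
      rw [← h1]
      exact hs
    · intro h1
      rw [Option.some.injEq]
      apply C.cw_inj
      funext k
      apply C.s_inj
      exact (hs k).symm.trans (h1 k)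
  · constructor
    · intro h1; cases h1
    · intro h1; exact absurd ⟨a, h1⟩ h

lemma dec_tr (n : ℤ) (x : ℤ → S) : C.dec (tr n x) = tr n (C.dec x) := by
  funext i
  simp only [dec, tr_apply]
  congr 1
  funext k
  congr 1
  ring

lemma dec_congr {x y : ℤ → S} {i : ℤ} (h : ∀ j, i ≤ j → j ≤ i + 5 → x j = y j) :
    C.dec x i = C.dec y i := by
  simp only [dec]
  congr 1
  funext k
  have := k.2
  exact h _ (by omega) (by omega)

end Code

/-- Letters at mutual distance at least six. -/
def Sparse {A : Type*} (z : ℤ → Option A) : Prop :=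
  ∀ i j, z i ≠ none → z j ≠ none → i < j → i + 6 ≤ j

lemma Sparse.eq_of_close {A : Type*} {z : ℤ → Option A} (hz : Sparse z) {i j : ℤ}
    (hi : z i ≠ none) (hj : z j ≠ none) (h1 : i < j + 6) (h2 : j < i + 6) : i = j := by
  rcases lt_trichotomy i j with h | h | h
  · have := hz i j hi hj h; omega
  · exact h
  · have := hz j i hj hi h; omega

lemma Sparse.of_iff {A : Type*} {z z' : ℤ → Option A} (hz : Sparse z)
    (h : ∀ i, z' i = none ↔ z i = none) : Sparse z' :=
  fun i j hi hj hij => hz i j (fun h' => hi ((h i).2 h')) (fun h' => hj ((h j).2 h')) hij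

namespace Code

variable {A S : Type*} (C : Code A S)

lemma sparse_dec (x : ℤ → S) : Sparse (C.dec x) := by
  intro i j hi hj hij
  by_contra hcon
  obtain ⟨a, ha⟩ := Option.ne_none_iff_exists'.1 hi
  obtain ⟨b, hb⟩ := Option.ne_none_iff_exists'.1 hj
  rw [dec_eq_some] at ha hb
  have hm : (j - i).toNat < 6 := by omega
  obtain ⟨k, l, hkl, hne⟩ := C.unb a b ⟨(j - i).toNat, hm⟩ (by
    intro h
    have := congrArg Fin.val h
    simp at this
    omega)
  apply hne
  apply C.s_inj
  rw [← ha l, ← hb k]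
  congr 1
  simp only at hkl
  omega

open Classical in
/-- Local replacement. -/
noncomputable def repLoc (c : S) (w : Fin 6 → Option A) : S :=
  if h : ∃ p : Fin 6 × A, w p.1 = some p.2 then C.s (C.cw h.choose.2 h.choose.1) else c

/-- Writing the code words prescribed by `z` on top of `x`. -/
noncomputable def rep (x : ℤ → S) (z : ℤ → Option A) : ℤ → S :=
  fun j => C.repLoc (x j) fun k : Fin 6 => z (j - (k : ℕ))

lemma rep_of_some (x : ℤ → S) {z : ℤ → Option A} (hz : Sparse z) {i : ℤ} {a : A}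
    (h : z i = some a) (k : Fin 6) : C.rep x z (i + (k : ℕ)) = C.s (C.cw a k) := by
  unfold rep repLoc
  have hex : ∃ p : Fin 6 × A, z (i + (k : ℕ) - (p.1 : ℕ)) = some p.2 := ⟨(k, a), by simpa using h⟩
  rw [dif_pos hex]
  have hs := hex.choose_spec
  generalize hex.choose = p at hs
  obtain ⟨l, b⟩ := p
  simp only at hs ⊢
  have hk := k.2
  have hl := l.2
  have h1 : i + (k : ℕ) - (l : ℕ) = i :=
    hz.eq_of_close (by rw [hs]; simp) (by rw [h]; simp) (by omega) (by omega)
  have h2 : l = k := by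
    apply Fin.ext
    omega
  rw [h1, h] at hs
  rw [h2, Option.some.inj hs]

lemma rep_of_none (x : ℤ → S) {z : ℤ → Option A} {j : ℤ}
    (h : ∀ k : Fin 6, z (j - (k : ℕ)) = none) : C.rep x z j = x j := by
  unfold rep repLoc
  rw [dif_neg]
  rintro ⟨p, hp⟩
  have := (h p.1).symm.trans hp
  cases this

lemma cover_cases (z : ℤ → Option A) (j : ℤ) :
    (∀ k : Fin 6, z (j - (k : ℕ)) = none) ∨ ∃ i a, ∃ k : Fin 6, z i = some a ∧ j = i + (k : ℕ) := by
  by_cases h : ∀ k : Fin 6, z (j - (k : ℕ)) = none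
  · exact Or.inl h
  · push Not at h
    obtain ⟨k, hk⟩ := h
    obtain ⟨a, ha⟩ := Option.ne_none_iff_exists'.1 hk
    exact Or.inr ⟨_, a, k, ha, by ring⟩

lemma rep_tr (n : ℤ) (x : ℤ → S) (z : ℤ → Option A) :
    C.rep (tr n x) (tr n z) = tr n (C.rep x z) := by
  funext j
  simp only [rep, tr_apply]
  congr 1
  funext k
  congr 1
  ring

lemma rep_congr {x y : ℤ → S} {z w : ℤ → Option A} {j : ℤ} (h : x j = y j)
    (h' : ∀ i, j - 5 ≤ i → i ≤ j → z i = w i) : C.rep x z j = C.rep y w j := by
  simp only [rep]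
  rw [h]
  congr 1
  funext k
  have := k.2
  exact h' _ (by omega) (by omega)

lemma dec_rep (x : ℤ → S) {z : ℤ → Option A} (hz : Sparse z)
    (hx : ∀ i, z i = none → C.dec x i = none) : C.dec (C.rep x z) = z := by
  have h1 : ∀ i a, z i = some a → C.dec (C.rep x z) i = some a := fun i a h =>
    C.dec_eq_some.2 fun k => C.rep_of_some x hz h k
  funext i
  cases hzi : z i with
  | some a => exact h1 i a hzi
  | none =>
    by_contra hne
    obtain ⟨b, hb⟩ := Option.ne_none_iff_exists'.1 hne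
    have hall : ∀ k : Fin 6, C.rep x z (i + (k : ℕ)) = x (i + (k : ℕ)) := by
      intro k
      rcases cover_cases z (i + (k : ℕ)) with h | ⟨i', a, l, ha, hl⟩
      · exact C.rep_of_none x h
      · exfalso
        have hk := k.2
        have hl' := l.2
        have := (C.sparse_dec (C.rep x z)).eq_of_close (i := i) (j := i') hne
          (by rw [h1 i' a ha]; simp) (by omega) (by omega)
        rw [← this, hzi] at ha
        cases ha
    have : C.dec x i = some b := by
      rw [dec_eq_some] at hb ⊢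
      intro k
      rw [← hall k, hb k]
    rw [hx i hzi] at this
    cases this

lemma rep_rep (x : ℤ → S) {z z' : ℤ → Option A} (hz' : Sparse z')
    (h : ∀ i, z' i = none → z i = none) : C.rep (C.rep x z) z' = C.rep x z' := by
  funext j
  rcases cover_cases z' j with h1 | ⟨i, a, k, ha, rfl⟩
  · rw [C.rep_of_none _ h1, C.rep_of_none _ h1, C.rep_of_none _ fun k => h _ (h1 k)]
  · rw [C.rep_of_some _ hz' ha, C.rep_of_some _ hz' ha]

lemma rep_dec (x : ℤ → S) : C.rep x (C.dec x) = x := by
  funext j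
  rcases cover_cases (C.dec x) j with h1 | ⟨i, a, k, ha, rfl⟩
  · exact C.rep_of_none _ h1
  · rw [C.rep_of_some _ (C.sparse_dec x) ha, C.dec_eq_some.1 ha]

end Code

/-- A local rule on letters and walls that keeps the walls. -/
structure Rule (A : Type*) where
  loc : Option A → Option A → Option A → Option A
  wall : ∀ l c r, loc l c r = none ↔ c = none

/-- The global map of a rule whose neighbours sit at distance `m`. -/
def Rule.glob {A : Type*} (R : Rule A) (m : ℤ) (z : ℤ → Option A) : ℤ → Option A :=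
  fun i => R.loc (z (i - m)) (z i) (z (i + m))

lemma Rule.glob_none {A : Type*} (R : Rule A) (m : ℤ) (z : ℤ → Option A) (i : ℤ) :
    R.glob m z i = none ↔ z i = none := R.wall _ _ _

lemma Rule.glob_tr {A : Type*} (R : Rule A) (m n : ℤ) (z : ℤ → Option A) :
    R.glob m (tr n z) = tr n (R.glob m z) := by
  funext i
  simp only [Rule.glob, tr_apply]
  congr 2 <;> ring

/-- Spreading a configuration to the multiples of six. -/
def up {A : Type*} (z : ℤ → Option A) : ℤ → Option A :=
  fun j => if j % 6 = 0 then z (j / 6) else none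

lemma up_mul {A : Type*} (z : ℤ → Option A) (i : ℤ) : up z (6 * i) = z i := by
  unfold up
  rw [if_pos (by omega)]
  congr 1
  omega

lemma sparse_up {A : Type*} (z : ℤ → Option A) : Sparse (up z) := by
  intro i j hi hj hij
  unfold up at hi hj
  have h1 : i % 6 = 0 := by
    by_contra h
    simp [h] at hi
  have h2 : j % 6 = 0 := by
    by_contra h
    simp [h] at hj
  omega

lemma up_tr {A : Type*} (n : ℤ) (z : ℤ → Option A) : up (tr n z) = tr (6 * n) (up z) := by
  funext j
  simp only [up, tr_apply]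
  have h1 : (j + 6 * n) % 6 = j % 6 := by omega
  have h2 : (j + 6 * n) / 6 = j / 6 + n := by omega
  rw [h1, h2]

lemma Rule.glob_up {A : Type*} (R : Rule A) (z : ℤ → Option A) :
    R.glob 6 (up z) = up (R.glob 1 z) := by
  funext j
  by_cases h : j % 6 = 0
  · simp only [Rule.glob, up]
    rw [if_pos h, if_pos h, if_pos (by omega), if_pos (by omega)]
    congr 2 <;> omega
  · have h1 : up (R.glob 1 z) j = none := by simp [up, h]
    rw [h1, R.glob_none]
    simp [up, h]

lemma Rule.glob_six_surjective {A : Type*} (R : Rule A) (h : Function.Surjective (R.glob 1)) :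
    Function.Surjective (R.glob 6) := by
  intro y
  choose g hg using h
  refine ⟨fun j => g (fun i => y (6 * i + j % 6)) (j / 6), ?_⟩
  funext j
  have := congrFun (hg fun i => y (6 * i + j % 6)) (j / 6)
  simp only [Rule.glob] at this ⊢
  have e1 : (j - 6) % 6 = j % 6 := by omega
  have e2 : (j + 6) % 6 = j % 6 := by omega
  have e3 : (j - 6) / 6 = j / 6 - 1 := by omega
  have e4 : (j + 6) / 6 = j / 6 + 1 := by omega
  have e5 : 6 * (j / 6) + j % 6 = j := by omega
  rw [e1, e2, e3, e4, this, e5]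

namespace Code

variable {A S : Type*} (C : Code A S)

/-- The cellular automaton over `S` simulating the rule `R` on code words. -/
noncomputable def sim (R : Rule A) (x : ℤ → S) : ℤ → S := C.rep x (R.glob 6 (C.dec x))

lemma sparse_glob_dec (R : Rule A) (x : ℤ → S) : Sparse (R.glob 6 (C.dec x)) :=
  (C.sparse_dec x).of_iff fun i => R.glob_none _ _ i

lemma dec_sim (R : Rule A) (x : ℤ → S) : C.dec (C.sim R x) = R.glob 6 (C.dec x) :=
  C.dec_rep x (C.sparse_glob_dec R x) fun i h => (R.glob_none _ _ i).1 h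

lemma rep_sim (R : Rule A) (x : ℤ → S) : C.rep (C.sim R x) (C.dec x) = x := by
  unfold sim
  rw [C.rep_rep x (C.sparse_dec x) fun i h => (R.glob_none _ _ i).2 h, rep_dec]

lemma sim_isCA [TopologicalSpace S] [DiscreteTopology S] (R : Rule A) : IsCA (C.sim R) := by
  constructor
  · refine continuous_pi fun j => continuous_of_radius _ (j - 20) (j + 20) fun x y h => ?_
    refine C.rep_congr (h j (by omega) (by omega)) fun i h1 h2 => ?_
    simp only [Rule.glob]
    congr 1 <;> exact C.dec_congr fun l h3 h4 => h l (by omega) (by omega)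
  · intro x
    simp only [shift_eq_tr, sim]
    rw [dec_tr, Rule.glob_tr, rep_tr]

lemma sim_surjective (R : Rule A) (h : Function.Surjective (R.glob 1)) :
    Function.Surjective (C.sim R) := by
  intro y
  obtain ⟨z, hz⟩ := R.glob_six_surjective h (C.dec y)
  have hw : ∀ i, z i = none ↔ C.dec y i = none := fun i => by
    rw [← hz, R.glob_none]
  have hs : Sparse z := (C.sparse_dec y).of_iff hw
  refine ⟨C.rep y z, ?_⟩
  unfold sim
  rw [C.dec_rep y hs fun i h => (hw i).1 h, hz,
    C.rep_rep y (C.sparse_dec y) fun i h => (hw i).2 h, rep_dec]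

lemma sim_closing [TopologicalSpace S] [DiscreteTopology S] (R : Rule A) {d : ℤ}
    (hd : d = 1 ∨ d = -1)
    (h : ∀ (z w : ℤ → Option A) (i : ℤ), z (i + 6 * d) = w (i + 6 * d) →
      R.glob 6 z i = R.glob 6 w i → z i = w i) : Closing d (C.sim R) := by
  refine ⟨C.sim_isCA R, fun x y ⟨N, hN⟩ hxy => ?_⟩
  have h1 : R.glob 6 (C.dec x) = R.glob 6 (C.dec y) := by
    rw [← dec_sim, ← dec_sim, hxy]
  have h2 : ∀ n : ℕ, ∀ i, N + 5 - n ≤ d * i → C.dec x i = C.dec y i := by
    intro n
    induction n with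
    | zero =>
      intro i hi
      refine C.dec_congr fun l h3 h4 => hN l ?_
      rcases hd with rfl | rfl <;> omega
    | succ n ih =>
      intro i hi
      refine h _ _ i (ih _ ?_) (congrFun h1 i)
      rcases hd with rfl | rfl <;> omega
  have h3 : C.dec x = C.dec y := by
    funext i
    exact h2 (N + 5 - d * i).toNat i (by omega)
  rw [← C.rep_sim R x, ← C.rep_sim R y, hxy, h3]

/-- The embedding of configurations over letters and walls. -/
noncomputable def enc (z : ℤ → Option A) : ℤ → S := C.rep (fun _ => C.s false) (up z)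

lemma dec_enc (z : ℤ → Option A) : C.dec (C.enc z) = up z := by
  refine C.dec_rep _ (sparse_up z) fun i _ => ?_
  by_contra hne
  obtain ⟨b, hb⟩ := Option.ne_none_iff_exists'.1 hne
  have := C.s_inj (C.dec_eq_some.1 hb 2)
  rw [C.cw_two] at this
  cases this

lemma enc_injective : Function.Injective C.enc := by
  intro z w h
  have h1 : up z = up w := by rw [← C.dec_enc, ← C.dec_enc, h]
  funext i
  rw [← up_mul z i, ← up_mul w i, h1]

lemma sim_enc (R : Rule A) (z : ℤ → Option A) : C.sim R (C.enc z) = C.enc (R.glob 1 z) := by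
  unfold sim
  rw [dec_enc, Rule.glob_up]
  unfold enc
  refine C.rep_rep _ (sparse_up _) fun i h => ?_
  rw [← Rule.glob_up, R.glob_none] at h
  exact h

lemma good_enc [TopologicalSpace S] : Good C.enc := by
  constructor
  · refine continuous_pi fun j =>
      continuous_of_radius _ (j / 6 - 2) (j / 6 + 2) fun x y h => ?_
    refine C.rep_congr rfl fun i h1 h2 => ?_
    simp only [up]
    split_ifs
    · exact h _ (by omega) (by omega)
    · rfl
  · intro n z
    unfold enc
    rw [← rep_tr, up_tr]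
    rfl

end Code

/-- The three code words `001011`, `001101`, `001111`. -/
def cw3 (a : ZMod 3) (k : Fin 6) : Bool :=
  k = 2 ∨ k = 5 ∨ (k = 3 ∧ a ≠ 0) ∨ (k = 4 ∧ a ≠ 1)

/-- The two code words `001011`, `001101`. -/
def cw2 (a : ZMod 2) (k : Fin 6) : Bool :=
  k = 2 ∨ k = 5 ∨ (k = 3 ∧ a ≠ 0) ∨ (k = 4 ∧ a ≠ 1)

lemma exists_bool_inj (S : Type*) [Fintype S] (hS : 2 ≤ Fintype.card S) :
    ∃ s : Bool → S, Function.Injective s := by
  have : Fintype.card Bool ≤ Fintype.card S := by simpa using hS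
  obtain ⟨e⟩ := Function.Embedding.nonempty_of_card_le this
  exact ⟨e, e.injective⟩

lemma exists_code3 (S : Type*) [Fintype S] (hS : 2 ≤ Fintype.card S) :
    Nonempty (Code (ZMod 3) S) := by
  obtain ⟨s, hs⟩ := exists_bool_inj S hS
  exact ⟨⟨s, hs, cw3, by decide, by decide, by decide⟩⟩

lemma exists_code2 (S : Type*) [Fintype S] (hS : 2 ≤ Fintype.card S) :
    Nonempty (Code (ZMod 2) S) := by
  obtain ⟨s, hs⟩ := exists_bool_inj S hS
  exact ⟨⟨s, hs, cw2, by decide, by decide, by decide⟩⟩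

end Pool.Agent.MP_2e1455_lc

end MrgPart1

-- ======== part 2: formerly Pool.Agent.MP_2e1455_lc.Tails
section MrgPart2

namespace Pool.Agent.MP_2e1455_lc

open Filter Topology

/-- Letters `u`, with walls at the positions `i` with `n ≤ d * i`. -/
def emb {A : Type*} (d n : ℤ) (u : ℤ → A) : ℤ → Option A :=
  fun i => if n ≤ d * i then none else some (u i)

/-- Letters `u`, no walls. -/
def bulk {A : Type*} (u : ℤ → A) : ℤ → Option A := fun i => some (u i)

lemma bulk_injective {A : Type*} : Function.Injective (bulk : (ℤ → A) → (ℤ → Option A)) := by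
  intro u v h
  funext i
  exact Option.some.inj (congrFun h i)

lemma asym_emb_emb {A : Type*} (d n : ℤ) (u v : ℤ → A) : Asym d (emb d n u) (emb d n v) :=
  ⟨n, fun i hi => by simp [emb, hi]⟩

lemma asym_emb_bulk {A : Type*} (d n : ℤ) {u v : ℤ → A} (h : Asym d u v) :
    Asym d (emb (-d) n u) (bulk v) := by
  obtain ⟨N, hN⟩ := h
  refine ⟨max N (1 - n), fun i hi => ?_⟩
  have h1 : N ≤ d * i := le_trans (le_max_left _ _) hi
  have h2 : 1 - n ≤ d * i := le_trans (le_max_right _ _) hi
  have h3 : ¬ n ≤ -d * i := by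
    rw [neg_mul]
    omega
  simp only [emb, bulk, if_neg h3, hN i h1]

lemma tendsto_emb {A : Type*} [TopologicalSpace A] [DiscreteTopology A] (d : ℤ) {g : ℕ → ℤ}
    (hg : Tendsto g atTop atTop) {u : ℕ → ℤ → A} {w : ℤ → A} (hu : Tendsto u atTop (𝓝 w)) :
    Tendsto (fun k => emb d (g k) (u k)) atTop (𝓝 (bulk w)) := by
  rw [tendsto_pi_nhds] at hu ⊢
  intro i
  have h1 := hu i
  rw [nhds_discrete, tendsto_pure] at h1
  refine tendsto_const_nhds.congr' ?_
  filter_upwards [h1, hg.eventually_gt_atTop (d * i)] with k hk hk'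
  simp only [emb, bulk, if_neg (not_le.2 hk'), hk]

lemma eq_of_tendsto {X Y : Type*} [TopologicalSpace X] [TopologicalSpace Y] [T2Space Y]
    {ψ : X → Y} (hψ : Continuous ψ) {a b : ℕ → X} {x y : X} (ha : Tendsto a atTop (𝓝 x))
    (hb : Tendsto b atTop (𝓝 y)) (h : ∀ k, ψ (a k) = ψ (b k)) : ψ x = ψ y := by
  have h1 := (hψ.tendsto x).comp ha
  have h2 := (hψ.tendsto y).comp hb
  have : ψ ∘ a = ψ ∘ b := funext h
  rw [this] at h1
  exact tendsto_nhds_unique h1 h2

lemma Rule.continuous_glob {A : Type*} (R : Rule A) : Continuous (R.glob 1) := by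
  refine continuous_pi fun j => continuous_of_radius _ (j - 1) (j + 1) fun x y h => ?_
  simp only [Rule.glob]
  rw [h (j - 1) (by omega) (by omega), h j (by omega) (by omega), h (j + 1) (by omega) (by omega)]

/-- A wall-keeping rule that is injective on finitely supported configurations is surjective. -/
lemma Rule.surjective_of_finite_inj {A : Type*} [Finite A] (R : Rule A)
    (h : ∀ (N : ℕ) (x y : ℤ → Option A), (∀ i : ℤ, (N : ℤ) < |i| → x i = none) →
      R.glob 1 x = R.glob 1 y → x = y) : Function.Surjective (R.glob 1) := by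
  have hcl : IsClosed (Set.range (R.glob 1)) := (isCompact_range R.continuous_glob).isClosed
  intro y
  have key : ∀ N : ℕ, (fun i : ℤ => if (N : ℤ) < |i| then none else y i) ∈
      Set.range (R.glob 1) := by
    intro N
    let X : Set (ℤ → Option A) := {x | ∀ i : ℤ, (N : ℤ) < |i| → x i = none}
    have hfin : X.Finite := by
      have : Finite X := by
        refine Finite.of_injective
          (fun x : X => fun i : Finset.Icc (-(N : ℤ)) N => x.1 i) fun x x' hx => ?_
        apply Subtype.ext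
        funext i
        by_cases hi : (N : ℤ) < |i|
        · rw [x.2 i hi, x'.2 i hi]
        · exact congrFun hx ⟨i, Finset.mem_Icc.2 (abs_le.1 (not_lt.1 hi))⟩
      exact Set.toFinite X
    have hmaps : Set.MapsTo (R.glob 1) X X := fun x hx i hi => (R.glob_none _ _ i).2 (hx i hi)
    have hinj : Set.InjOn (R.glob 1) X := fun x hx x' _ hxx => h N x x' hx hxx
    have hbij := (hfin.injOn_iff_bijOn_of_mapsTo hmaps).1 hinj
    obtain ⟨x, -, hx⟩ := hbij.surjOn (a := fun i : ℤ => if (N : ℤ) < |i| then none else y i)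
      (fun i hi => if_pos hi)
    exact ⟨x, hx⟩
  suffices hlim : Tendsto (fun N : ℕ => fun i : ℤ => if (N : ℤ) < |i| then none else y i)
      atTop (𝓝 y) from hcl.mem_of_tendsto hlim (Eventually.of_forall key)
  rw [tendsto_pi_nhds]
  intro i
  refine tendsto_const_nhds.congr' ?_
  filter_upwards [eventually_ge_atTop i.natAbs] with N hN
  rw [if_neg]
  have : |i| = (i.natAbs : ℤ) := by simp
  omega

end Pool.Agent.MP_2e1455_lc

end MrgPart2

-- marker of a merged file
example : 731051 + 347533 = 731051 + 347533 := rfl
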