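import Mathlib.Algebra.EuclideanDomain.Int
import Mathlib.Algebra.EuclideanDomain.Basic
import Mathlib.Data.Int.SuccPred
import Mathlib.Tactic.LinearCombination
import Mathlib.Topology.Instances.ZMod
import Pool.Agent.MP_2e1455_lc.Tails

namespace Pool.Agent.MP_2e1455_lc

open Filter Topology

/-- Between walls: the sum of the two neighbours, a left wall read as `0` and a right wall read
as the letter itself. -/
def rule3 : Rule (ZMod 3) where
  loc l c r := c.map fun a => l.getD 0 + r.getD a
  wall l c r := by cases c <;> simp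

lemma rule3_inj (N : ℕ) (x y : ℤ → Option (ZMod 3)) (hx : ∀ i : ℤ, (N : ℤ) < |i| → x i = none)
    (h : rule3.glob 1 x = rule3.glob 1 y) : x = y := by
  have hw : ∀ i, x i = none ↔ y i = none := fun i => by
    rw [← rule3.glob_none 1 x, h, rule3.glob_none]
  let D : ℤ → ZMod 3 := fun i => (x i).getD 0 - (y i).getD 0
  have hD0 : ∀ i, x i = none → D i = 0 := fun i hi => by
    simp only [D, hi, (hw i).1 hi, sub_self]
  have hDx : ∀ i, D i = 0 → x i = y i := by
    intro i hi
    have h1 := hw i
    simp only [D] at hi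
    cases hxi : x i <;> cases hyi : y i <;> simp_all [sub_eq_zero]
  have heq : ∀ i, x i ≠ none →
      (x (i + 1) = none → D (i - 1) + D i = 0) ∧ (x (i + 1) ≠ none → D (i - 1) + D (i + 1) = 0) := by
    intro i hi
    have h1 := congrFun h i
    have h2 := hw i
    have h3 := hw (i + 1)
    simp only [Rule.glob, rule3] at h1
    simp only [D]
    obtain ⟨a, ha⟩ := Option.ne_none_iff_exists'.1 hi
    obtain ⟨b, hb⟩ := Option.ne_none_iff_exists'.1 (fun h' => hi (h2.2 h'))
    rw [ha, hb] at h1 ⊢
    simp only [Option.map_some, Option.some.injEq] at h1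
    constructor
    · intro h4
      rw [h4, h3.1 h4] at h1
      simp only [Option.getD_none, Option.getD_some] at h1 ⊢
      linear_combination h1
    · intro h4
      obtain ⟨a', ha'⟩ := Option.ne_none_iff_exists'.1 h4
      obtain ⟨b', hb'⟩ := Option.ne_none_iff_exists'.1 (fun h' => h4 (h3.2 h'))
      rw [ha', hb'] at h1 ⊢
      simp only [Option.getD_some] at h1 ⊢
      linear_combination h1
  have hA : ∀ n : ℕ, ∀ i : ℤ, i ≤ -(N : ℤ) - 1 + n → D i = 0 ∨ D (i + 1) = 0 := by
    intro n
    induction n with
    | zero =>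
      intro i hi
      exact Or.inl (hD0 i (hx i (by rw [lt_abs]; omega)))
    | succ n ih =>
      intro i hi
      have h1 := ih (i - 1) (by omega)
      rw [sub_add_cancel] at h1
      rcases h1 with h1 | h1
      · by_cases h2 : x i = none
        · exact Or.inl (hD0 i h2)
        · by_cases h3 : x (i + 1) = none
          · have := (heq i h2).1 h3
            rw [h1, zero_add] at this
            exact Or.inl this
          · have := (heq i h2).2 h3
            rw [h1, zero_add] at this
            exact Or.inr this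
      · exact Or.inl h1
  have hA' : ∀ i : ℤ, D i = 0 ∨ D (i + 1) = 0 := fun i => hA (i + N + 1).toNat i (by omega)
  have hB : ∀ n : ℕ, ∀ i : ℤ, (N : ℤ) + 1 - n ≤ i → D i = 0 := by
    intro n
    induction n with
    | zero =>
      intro i hi
      exact hD0 i (hx i (by rw [lt_abs]; omega))
    | succ n ih =>
      intro i hi
      have h1 := ih (i + 1) (by omega)
      have h2 := ih (i + 1 + 1) (by omega)
      by_cases h3 : x (i + 1) = none
      · by_cases h4 : x i = none
        · exact hD0 i h4
        · have h5 := (heq i h4).1 h3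
          have h6 := hA' (i - 1)
          rw [sub_add_cancel] at h6
          rcases h6 with h6 | h6
          · rw [h6, zero_add] at h5
            exact h5
          · exact h6
      · have h5 := heq (i + 1) h3
        rw [add_sub_cancel_right, h1, h2, add_zero] at h5
        by_cases h6 : x (i + 1 + 1) = none
        · exact h5.1 h6
        · exact h5.2 h6
  funext i
  exact hDx i (hB (N + 1 - i).toNat i (by omega))

lemma rule3_surjective : Function.Surjective (rule3.glob 1) :=
  rule3.surjective_of_finite_inj rule3_inj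

/-- The kernel of the wall-free rule. -/
def Ker3 (v : ℤ → ZMod 3) : Prop := ∀ i, v (i + 2) = -v i

/-- The boundary condition at a wall in direction `d`. -/
def Bd3 (d n : ℤ) (v : ℤ → ZMod 3) : Prop :=
  if d = 1 then v (n - 2) + v (n - 1) = 0 else v (-n + 2) = 0

/-- The relation that survives the removal of a closing factor. -/
def P3 {Y : Type*} (ψ : (ℤ → Option (ZMod 3)) → Y) : Prop :=
  (∀ v, Ker3 v → ∀ u, ψ (bulk u) = ψ (bulk (u + v))) ∧
  ∀ d, (d = 1 ∨ d = -1) → ∀ n v, Ker3 v → Bd3 d n v → ∀ u, ψ (emb d n u) = ψ (emb d n (u + v))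

lemma p3_glob : P3 (rule3.glob 1) := by
  constructor
  · intro v hv u
    funext i
    have := hv (i - 1)
    have e : i - 1 + 2 = i + 1 := by ring
    rw [e] at this
    simp only [Rule.glob, rule3, bulk, Option.map_some, Option.getD_some, Pi.add_apply,
      Option.some.injEq]
    linear_combination -this
  · intro d hd n v hv hb u
    funext i
    have h1 := hv (i - 1)
    have e : i - 1 + 2 = i + 1 := by ring
    rw [e] at h1
    rcases hd with rfl | rfl
    · simp only [Bd3, if_true] at hb
      simp only [Rule.glob, rule3, emb, one_mul]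
      by_cases h2 : n ≤ i
      · simp [h2]
      · rw [if_neg h2, if_neg h2, if_neg (show ¬ n ≤ i - 1 by omega),
          if_neg (show ¬ n ≤ i - 1 by omega)]
        by_cases h3 : n ≤ i + 1
        · rw [if_pos h3, if_pos h3]
          have e1 : n - 2 = i - 1 := by omega
          have e2 : n - 1 = i := by omega
          rw [e1, e2] at hb
          simp only [Option.map_some, Option.getD_some, Option.getD_none, Pi.add_apply,
            Option.some.injEq]
          linear_combination -hb
        · rw [if_neg h3, if_neg h3]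
          simp only [Option.map_some, Option.getD_some, Pi.add_apply, Option.some.injEq]
          linear_combination -h1
    · simp only [Bd3, if_neg (show ¬ (-1 : ℤ) = 1 by decide)] at hb
      simp only [Rule.glob, rule3, emb]
      by_cases h2 : n ≤ -1 * i
      · simp only [if_pos h2, Option.map_none]
      · rw [if_neg h2, if_neg h2, if_neg (show ¬ n ≤ -1 * (i + 1) by omega),
          if_neg (show ¬ n ≤ -1 * (i + 1) by omega)]
        by_cases h3 : n ≤ -1 * (i - 1)
        · rw [if_pos h3, if_pos h3]
          have e1 : -n + 2 = i + 1 := by omega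
          rw [e1] at hb
          simp only [Option.map_some, Option.getD_some, Option.getD_none, Pi.add_apply,
            Option.some.injEq]
          linear_combination -hb
        · rw [if_neg h3, if_neg h3]
          simp only [Option.map_some, Option.getD_some, Pi.add_apply, Option.some.injEq]
          linear_combination -h1

lemma Bd3.step {d n : ℤ} {v : ℤ → ZMod 3} (hv : Ker3 v) (h : Bd3 d n v) : Bd3 d (n + 2) v := by
  unfold Bd3 at h ⊢
  split_ifs at h ⊢
  · have h1 := hv (n - 2)
    have h2 := hv (n - 1)
    have e1 : n + 2 - 2 = n - 2 + 2 := by ring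
    have e2 : n + 2 - 1 = n - 1 + 2 := by ring
    rw [e1, e2, h1, h2]
    linear_combination -h
  · have h1 := hv (-n)
    have e1 : -(n + 2) + 2 = -n := by ring
    rw [e1]
    linear_combination h1 - h

lemma Bd3.steps {d n : ℤ} {v : ℤ → ZMod 3} (hv : Ker3 v) (h : Bd3 d n v) (k : ℕ) :
    Bd3 d (n + 2 * k) v := by
  induction k with
  | zero => simpa using h
  | succ k ih =>
    have e : n + 2 * ((k + 1 : ℕ) : ℤ) = n + 2 * k + 2 := by push_cast; ring
    rw [e]
    exact ih.step hv

lemma ker3_split {d : ℤ} (hd : d = 1 ∨ d = -1) {v : ℤ → ZMod 3} (hv : Ker3 v) :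
    ∃ a b, Ker3 a ∧ Ker3 b ∧ Bd3 d 0 a ∧ Bd3 d 1 b ∧ v = a + b := by
  have h3 : (3 : ZMod 3) = 0 := rfl
  rcases hd with rfl | rfl
  · let b : ℤ → ZMod 3 := fun i => if i % 2 = 0 then -(v i + v (i + 1)) else v (i + 1) + v (i + 2)
    have hb : Ker3 b := by
      intro i
      have e : (i + 2) % 2 = i % 2 := by omega
      have e1 : i + 2 + 1 = i + 1 + 2 := by ring
      simp only [b, e, e1, hv (i + 1), hv (i + 2)]
      split_ifs
      · rw [hv i]; ring
      · ring
    refine ⟨v - b, b, ?_, hb, ?_, ?_, by simp⟩
    · intro i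
      simp only [Pi.sub_apply, hv i, hb i]
      ring
    · have h1 := hv (-2)
      have h2 := hv (-1)
      norm_num at h1 h2
      simp only [Bd3, if_true, b, Pi.sub_apply]
      norm_num
      rw [h1, h2]
      linear_combination (v (-2) + v (-1)) * h3
    · simp only [Bd3, if_true, b]
      norm_num
  · let a : ℤ → ZMod 3 := fun i => if i % 2 = 0 then 0 else v i
    have ha : Ker3 a := by
      intro i
      have e : (i + 2) % 2 = i % 2 := by omega
      simp only [a, e, hv i]
      split_ifs <;> simp
    refine ⟨a, v - a, ha, ?_, ?_, ?_, by simp⟩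
    · intro i
      simp only [Pi.sub_apply, hv i, ha i]
      ring
    · simp [Bd3, a]
    · simp [Bd3, a]

lemma p3_peel {S : Type*} [TopologicalSpace S] [DiscreteTopology S]
    (ψ : (ℤ → Option (ZMod 3)) → (ℤ → S)) (c : (ℤ → S) → (ℤ → S)) (d : ℤ) (hd : d = 1 ∨ d = -1)
    (hψ : Good ψ) (hc : Closing d c) (h : P3 (c ∘ ψ)) : P3 ψ := by
  have h1 : ∀ n v, Ker3 v → Bd3 d n v → ∀ u, ψ (emb d n u) = ψ (emb d n (u + v)) :=
    fun n v hv hb u => hψ.cancel hd hc (Asym.refl _ _) (asym_emb_emb d n _ _) rfl
      (h.2 d hd n v hv hb u)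
  have h2 : ∀ n v, Ker3 v → Bd3 d n v → ∀ u, ψ (bulk u) = ψ (bulk (u + v)) := by
    intro n v hv hb u
    have hg : Tendsto (fun k : ℕ => n + 2 * (k : ℤ)) atTop atTop := by
      refine tendsto_atTop.2 fun b => ?_
      filter_upwards [eventually_ge_atTop (b - n).toNat] with k hk
      omega
    exact eq_of_tendsto hψ.cont (tendsto_emb d hg (u := fun _ => u) tendsto_const_nhds)
      (tendsto_emb d hg (u := fun _ => u + v) tendsto_const_nhds)
      fun k => h1 _ v hv (hb.steps hv k) u
  have h3 : ∀ v, Ker3 v → ∀ u, ψ (bulk u) = ψ (bulk (u + v)) := by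
    intro v hv u
    obtain ⟨a, b, ha, hb, ha', hb', rfl⟩ := ker3_split hd hv
    rw [h2 0 a ha ha' u, h2 1 b hb hb' (u + a), add_assoc]
  refine ⟨h3, fun d' hd' n v hv hb u => ?_⟩
  by_cases hdd : d' = d
  · subst hdd
    exact h1 n v hv hb u
  · have e : d' = -d := by omega
    subst e
    exact hψ.cancel hd hc (asym_emb_bulk d n (Asym.refl _ _)) (asym_emb_bulk d n (Asym.refl _ _))
      (h3 v hv u) (h.2 _ hd' n v hv hb u)

lemma not_p3_of_injective {Y : Type*} {ψ : (ℤ → Option (ZMod 3)) → Y}
    (hψ : Function.Injective ψ) : ¬ P3 ψ := by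
  intro h
  let v : ℤ → ZMod 3 := fun i => if i % 4 < 2 then 1 else -1
  have hv : Ker3 v := by
    intro i
    simp only [v]
    split_ifs <;> first | rfl | omega
  have := congrFun (bulk_injective (hψ (h.1 v hv 0))) 0
  simp [v] at this

theorem exists_surjective_not_mem (S : Type*) [Fintype S] [TopologicalSpace S]
    [DiscreteTopology S] (hS : 2 ≤ Fintype.card S) :
    ∃ f : (ℤ → S) → (ℤ → S), IsCA f ∧ Function.Surjective f ∧ f ∉ hierarchy S := by
  obtain ⟨C⟩ := exists_code3 S hS
  refine ⟨C.sim rule3, C.sim_isCA rule3, C.sim_surjective rule3 rule3_surjective, fun hmem => ?_⟩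
  obtain ⟨n, hn⟩ := Set.mem_iUnion.1 hmem
  refine peel (fun _ ψ => P3 ψ) (fun _ ψ c d hd hψ hc h => p3_peel ψ c d hd hψ hc h) C.enc
    C.good_enc (fun _ => not_p3_of_injective C.enc_injective) n _ (Or.inl hn) (n + 1)
    (Nat.lt_succ_self n) ?_
  constructor
  · intro v hv u
    simp only [Function.comp, C.sim_enc]
    rw [p3_glob.1 v hv u]
  · intro d hd m v hv hb u
    simp only [Function.comp, C.sim_enc]
    rw [p3_glob.2 d hd m v hv hb u]

end Pool.Agent.MP_2e1455_lc
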