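import Mathlib.Tactic.LinearCombination
import Mathlib.Topology.AlexandrovDiscrete
import Mathlib.Topology.Instances.ZMod
import Pool.Agent.MP_2e1455_lc.Tails

namespace Pool.Agent.MP_2e1455_lc

open Filter Topology

/-- Between walls: add the neighbour in direction `c`, a wall being read as `0`. -/
def rule2 (c : ℤ) : Rule (ZMod 2) where
  loc l z r := z.map fun a => a + (if c = 1 then r else l).getD 0
  wall l z r := by cases z <;> simp

lemma rule2_glob {c : ℤ} (hc : c = 1 ∨ c = -1) (m : ℤ) (z : ℤ → Option (ZMod 2)) (i : ℤ) :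
    (rule2 c).glob m z i = (z i).map fun a => a + (z (i + m * c)).getD 0 := by
  rcases hc with rfl | rfl
  · simp [Rule.glob, rule2]
  · simp [Rule.glob, rule2, sub_eq_add_neg]

lemma sim_rule2_closing {S : Type*} [TopologicalSpace S] [DiscreteTopology S]
    (C : Code (ZMod 2) S) {c : ℤ} (hc : c = 1 ∨ c = -1) : Closing c (C.sim (rule2 c)) := by
  refine C.sim_closing _ hc fun z w i h1 h2 => ?_
  rw [rule2_glob hc, rule2_glob hc, h1] at h2
  cases hz : z i <;> cases hw : w i <;> simp_all

/-- The alternating product of `k` rules, the outermost looking in direction `c`. -/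
def phiT : ℤ → ℕ → (ℤ → Option (ZMod 2)) → (ℤ → Option (ZMod 2))
  | _, 0 => id
  | c, k + 1 => (rule2 c).glob 1 ∘ phiT (-c) k

/-- The same product over the alphabet `S`. -/
noncomputable def phiS {S : Type*} (C : Code (ZMod 2) S) : ℤ → ℕ → (ℤ → S) → (ℤ → S)
  | _, 0 => id
  | c, k + 1 => C.sim (rule2 c) ∘ phiS C (-c) k

lemma phiS_enc {S : Type*} (C : Code (ZMod 2) S) (k : ℕ) :
    ∀ c z, phiS C c k (C.enc z) = C.enc (phiT c k z) := by
  induction k with
  | zero => intro c z; rfl
  | succ k ih =>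
    intro c z
    simp only [phiS, phiT, Function.comp]
    rw [ih, C.sim_enc]

lemma phiS_mem {S : Type*} [TopologicalSpace S] [DiscreteTopology S] (C : Code (ZMod 2) S)
    (k : ℕ) : phiS C 1 k ∈ levelL S k ∧ phiS C (-1) k ∈ levelR S k := by
  induction k with
  | zero => exact ⟨mem_levelL_zero.2 rfl, mem_levelR_zero.2 rfl⟩
  | succ k ih =>
    exact ⟨mem_levelL_succ.2 ⟨_, sim_rule2_closing C (Or.inl rfl), _, ih.2, rfl⟩,
      mem_levelR_succ.2 ⟨_, sim_rule2_closing C (Or.inr rfl), _, ih.1, rfl⟩⟩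

/-- Letters `u` with walls on `W`. -/
def embW {A : Type*} (W : ℤ → Prop) [DecidablePred W] (u : ℤ → A) : ℤ → Option A :=
  fun i => if W i then none else some (u i)

/-- The linear map induced by one rule for the wall set `W`. -/
def op (W : ℤ → Prop) [DecidablePred W] (c : ℤ) (u : ℤ → ZMod 2) : ℤ → ZMod 2 :=
  fun i => u i + if W (i + c) then 0 else u (i + c)

/-- The linear map induced by the alternating product for the wall set `W`. -/
def lin (W : ℤ → Prop) [DecidablePred W] : ℤ → ℕ → (ℤ → ZMod 2) → (ℤ → ZMod 2)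
  | _, 0, u => u
  | c, k + 1, u => op W c (lin W (-c) k u)

lemma phiT_embW (W : ℤ → Prop) [DecidablePred W] (k : ℕ) :
    ∀ c, (c = 1 ∨ c = -1) → ∀ u, phiT c k (embW W u) = embW W (lin W c k u) := by
  induction k with
  | zero => intro c _ u; rfl
  | succ k ih =>
    intro c hc u
    simp only [phiT, lin, Function.comp]
    rw [ih (-c) (by omega)]
    funext i
    rw [rule2_glob hc]
    simp only [embW, op, one_mul]
    split_ifs <;> simp

lemma lin_add (W : ℤ → Prop) [DecidablePred W] (k : ℕ) :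
    ∀ c u v, lin W c k (u + v) = lin W c k u + lin W c k v := by
  induction k with
  | zero => intro c u v; rfl
  | succ k ih =>
    intro c u v
    funext i
    simp only [lin, ih, op, Pi.add_apply]
    split_ifs <;> ring

/-- The kernel of the alternating product for the wall set `W`. -/
def Kern (W : ℤ → Prop) [DecidablePred W] (c : ℤ) (k : ℕ) (v : ℤ → ZMod 2) : Prop :=
  ∀ i, ¬ W i → lin W c k v i = 0

lemma Kern.mono {W : ℤ → Prop} [DecidablePred W] {c : ℤ} {k : ℕ} {v : ℤ → ZMod 2}
    (h : Kern W (-c) k v) : Kern W c (k + 1) v := by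
  intro i hi
  simp only [lin, op, h i hi, zero_add]
  split_ifs with h1
  · rfl
  · exact h _ h1

lemma phiT_kern (W : ℤ → Prop) [DecidablePred W] {c : ℤ} (hc : c = 1 ∨ c = -1) {k : ℕ}
    {v : ℤ → ZMod 2} (h : Kern W c k v) (u : ℤ → ZMod 2) :
    phiT c k (embW W u) = phiT c k (embW W (u + v)) := by
  rw [phiT_embW W k c hc, phiT_embW W k c hc, lin_add]
  funext i
  simp only [embW, Pi.add_apply]
  split_ifs with h1
  · rfl
  · rw [h i h1, add_zero]

lemma lin_local (W : ℤ → Prop) [DecidablePred W] (k : ℕ) :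
    ∀ c, (c = 1 ∨ c = -1) → ∀ (u u' : ℤ → ZMod 2) (i : ℤ),
      (∀ l, i - k ≤ l → l ≤ i + k → ¬ W l ∧ u l = u' l) →
      lin W c k u i = lin (fun _ => False) c k u' i := by
  induction k with
  | zero =>
    intro c _ u u' i h
    exact (h i (by simp) (by simp)).2
  | succ k ih =>
    intro c hc u u' i h
    push_cast at h
    simp only [lin, op, if_false]
    rw [if_neg (h (i + c) (by omega) (by omega)).1,
      ih (-c) (by omega) u u' i fun l h1 h2 => h l (by omega) (by omega),
      ih (-c) (by omega) u u' (i + c) fun l h1 h2 => h l (by omega) (by omega)]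

/-- The wall-free difference operator. -/
def dif (u : ℤ → ZMod 2) : ℤ → ZMod 2 := fun i => u i + u (i + 1)

lemma lin_empty (k : ℕ) : ∀ c, (c = 1 ∨ c = -1) →
    ∃ m : ℤ, ∀ u, lin (fun _ => False) c k u = tr m (dif^[k] u) := by
  induction k with
  | zero => intro c _; exact ⟨0, fun u => by simp [lin, tr_zero]⟩
  | succ k ih =>
    intro c hc
    obtain ⟨m, hm⟩ := ih (-c) (by omega)
    rcases hc with rfl | rfl
    · refine ⟨m, fun u => ?_⟩
      funext i
      rw [Function.iterate_succ_apply']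
      simp only [lin, op, if_false, hm, tr_apply, dif]
      ring_nf
    · refine ⟨m - 1, fun u => ?_⟩
      funext i
      rw [Function.iterate_succ_apply']
      simp only [lin, op, if_false, hm, tr_apply, dif]
      ring_nf

lemma dif_add (u v : ℤ → ZMod 2) : dif (u + v) = dif u + dif v := by
  funext i
  simp only [dif, Pi.add_apply]
  ring

lemma dif_iter_add (k : ℕ) : ∀ u v : ℤ → ZMod 2, dif^[k] (u + v) = dif^[k] u + dif^[k] v := by
  induction k with
  | zero => intro u v; rfl
  | succ k ih => intro u v; simp only [Function.iterate_succ_apply, dif_add, ih]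

lemma two_zero (a : ZMod 2) : a + a = 0 := by
  revert a
  decide

lemma eq_of_add_zero {a b : ZMod 2} (h : a + b = 0) : b = a := by
  revert a b
  decide

lemma dif_eq_zero {v : ℤ → ZMod 2} (h : dif v = 0) : v = 0 ∨ v = 1 := by
  have h1 : ∀ i, v (i + 1) = v i := fun i => eq_of_add_zero (congrFun h i)
  have h2 : ∀ i, v i = v 0 := by
    intro i
    induction i using Int.induction_on with
    | zero => rfl
    | succ n ih => rw [h1, ih]
    | pred n ih => rw [← h1, sub_add_cancel, ih]
  have h3 : ∀ a : ZMod 2, a = 0 ∨ a = 1 := by decide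
  rcases h3 (v 0) with h4 | h4
  · exact Or.inl (funext fun i => (h2 i).trans h4)
  · exact Or.inr (funext fun i => (h2 i).trans h4)

lemma dif_surjective (s : ℤ → ZMod 2) : ∃ b, dif b = s := by
  let f : ℕ → ZMod 2 := fun n => ∑ l ∈ Finset.range n, s l
  let g : ℕ → ZMod 2 := fun n => ∑ l ∈ Finset.range n, s (-(l : ℤ) - 1)
  refine ⟨fun i => f i.toNat + g (-i).toNat, ?_⟩
  funext i
  simp only [dif]
  rcases le_or_gt 0 i with hi | hi
  · obtain ⟨n, rfl⟩ := Int.eq_ofNat_of_zero_le hi
    have e1 : ((n : ℤ) + 1).toNat = n + 1 := by omega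
    have e2 : (-((n : ℤ) + 1)).toNat = 0 := by omega
    have e3 : (-(n : ℤ)).toNat = 0 := by omega
    have e4 : (n : ℤ).toNat = n := by omega
    rw [e1, e2, e3, e4]
    simp only [f, g, Finset.sum_range_succ, Finset.range_zero, Finset.sum_empty, add_zero]
    rw [← add_assoc, two_zero, zero_add]
  · obtain ⟨n, rfl⟩ : ∃ n : ℕ, i = -(n : ℤ) - 1 := ⟨(-i - 1).toNat, by omega⟩
    have e1 : (-(n : ℤ) - 1 + 1).toNat = 0 := by omega
    have e2 : (-(-(n : ℤ) - 1 + 1)).toNat = n := by omega
    have e3 : (-(-(n : ℤ) - 1)).toNat = n + 1 := by omega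
    have e4 : (-(n : ℤ) - 1).toNat = 0 := by omega
    rw [e1, e2, e3, e4]
    simp only [f, g, Finset.sum_range_succ, Finset.range_zero, Finset.sum_empty, zero_add]
    rw [add_right_comm, two_zero, zero_add]

lemma dif_extend {d : ℤ} (hd : d = 1 ∨ d = -1) {a s : ℤ → ZMod 2} (h : Asym d (dif a) s) :
    ∃ a', Asym d a a' ∧ dif a' = s := by
  obtain ⟨b, hb⟩ := dif_surjective s
  obtain ⟨N, hN⟩ := h
  have h1 : ∀ i, N ≤ d * i → a (i + 1) + b (i + 1) = a i + b i := by
    intro i hi
    apply eq_of_add_zero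
    have h2 := hN i hi
    rw [← hb] at h2
    simp only [dif] at h2
    linear_combination h2 + two_zero (b i + b (i + 1))
  have h2 : ∀ n : ℕ, a (d * (N + n)) + b (d * (N + n)) = a (d * N) + b (d * N) := by
    intro n
    induction n with
    | zero => simp
    | succ n ih =>
      rw [← ih]
      rcases hd with rfl | rfl
      · have e : 1 * (N + ((n + 1 : ℕ) : ℤ)) = 1 * (N + n) + 1 := by push_cast; ring
        rw [e]
        exact h1 _ (by omega)
      · have e : -1 * (N + (n : ℤ)) = -1 * (N + ((n + 1 : ℕ) : ℤ)) + 1 := by push_cast; ring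
        rw [e]
        exact (h1 _ (by push_cast; omega)).symm
  refine ⟨fun i => b i + (a (d * N) + b (d * N)), ⟨N, fun i hi => ?_⟩, ?_⟩
  · have e : i = d * (N + ((d * i - N).toNat : ℕ)) := by
      rcases hd with rfl | rfl <;> omega
    have h3 := h2 (d * i - N).toNat
    rw [← e] at h3
    simp only
    rw [← h3]
    linear_combination -two_zero (b i)
  · funext i
    rw [← hb]
    simp only [dif]
    linear_combination two_zero (a (d * N) + b (d * N))

lemma dif_iter_extend {d : ℤ} (hd : d = 1 ∨ d = -1) (k : ℕ) :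
    ∀ v s : ℤ → ZMod 2, Asym d (dif^[k] v) s → ∃ w, Asym d v w ∧ dif^[k] w = s := by
  induction k with
  | zero => intro v s h; exact ⟨s, h, rfl⟩
  | succ k ih =>
    intro v s h
    rw [Function.iterate_succ_apply'] at h
    obtain ⟨a, ha, ha'⟩ := dif_extend hd h
    obtain ⟨w, hw, hw'⟩ := ih v a ha
    exact ⟨w, hw, by rw [Function.iterate_succ_apply', hw', ha']⟩

lemma uniserial (N : (ℤ → ZMod 2) → Prop) (h0 : N 0) (hadd : ∀ u v, N u → N v → N (u + v))
    (htr : ∀ u, N u → N (tr 1 u)) (j : ℕ) :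
    ∀ w, N w → dif^[j] w = 1 → ∀ v, dif^[j + 1] v = 0 → N v := by
  induction j with
  | zero =>
    intro w hw hw1 v hv
    rcases dif_eq_zero (v := v) hv with rfl | rfl
    · exact h0
    · rw [← hw1]
      exact hw
  | succ j ih =>
    intro w hw hw1 v hv
    have hdw : N (dif w) := hadd _ _ hw (htr _ hw)
    have key := ih (dif w) hdw hw1
    rw [Function.iterate_succ_apply'] at hv
    rcases dif_eq_zero hv with h | h
    · exact key v h
    · have h1 : dif^[j + 1] (v + w) = 0 := by
        rw [dif_iter_add, h, hw1]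
        funext i
        exact two_zero 1
      have h2 := hadd _ _ (key _ h1) hw
      have e : v + w + w = v := by
        funext i
        simp only [Pi.add_apply]
        rw [add_assoc, two_zero, add_zero]
      rwa [e] at h2

lemma op_surj {d c : ℤ} (hd : d = 1 ∨ d = -1) (hc : c = 1 ∨ c = -1) (n : ℤ) (s : ℤ → ZMod 2) :
    ∃ v, ∀ i, ¬ n ≤ d * i → op (fun i => n ≤ d * i) c v i = s i := by
  obtain ⟨b, hb⟩ : ∃ b : ℤ → ZMod 2, ∀ i, b i + b (i + c) = s i := by
    rcases hc with rfl | rfl
    · obtain ⟨b, hb⟩ := dif_surjective s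
      exact ⟨b, fun i => congrFun hb i⟩
    · obtain ⟨b, hb⟩ := dif_surjective (tr 1 s)
      refine ⟨b, fun i => ?_⟩
      have := congrFun hb (i + -1)
      simp only [dif, tr_apply, neg_add_cancel_right] at this
      rw [add_comm, this]
  refine ⟨fun i => b i + b (d * n), fun i hi => ?_⟩
  simp only [op]
  split_ifs with h
  · have e : d * n = i + c := by
      rcases hd with rfl | rfl <;> rcases hc with rfl | rfl <;> omega
    rw [e, add_zero, hb]
  · rw [← hb]
    linear_combination two_zero (b (d * n))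

lemma lin_surj {d : ℤ} (hd : d = 1 ∨ d = -1) (n : ℤ) (k : ℕ) :
    ∀ c, (c = 1 ∨ c = -1) → ∀ s : ℤ → ZMod 2,
      ∃ v, ∀ i, ¬ n ≤ d * i → lin (fun i => n ≤ d * i) c k v i = s i := by
  induction k with
  | zero => intro c _ s; exact ⟨s, fun _ _ => rfl⟩
  | succ k ih =>
    intro c hc s
    obtain ⟨a, ha⟩ := op_surj hd hc n s
    obtain ⟨v, hv⟩ := ih (-c) (by omega) a
    refine ⟨v, fun i hi => ?_⟩
    rw [← ha i hi]
    simp only [lin, op, hv i hi]
    split_ifs with h
    · rfl
    · rw [hv _ h]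

/-- The map `ψ` identifies the wall-free and the one-tail pairs identified by the product. -/
def P2 {Y : Type*} (c : ℤ) (k : ℕ) (ψ : (ℤ → Option (ZMod 2)) → Y) : Prop :=
  (∀ v, Kern (fun _ => False) c k v → ∀ u, ψ (bulk u) = ψ (bulk (u + v))) ∧
  ∀ d, (d = 1 ∨ d = -1) → ∀ n v, Kern (fun i => n ≤ d * i) c k v →
    ∀ u, ψ (emb d n u) = ψ (emb d n (u + v))

lemma P2.mono {Y : Type*} {c : ℤ} {k : ℕ} {ψ : (ℤ → Option (ZMod 2)) → Y}
    (h : P2 c (k + 1) ψ) : P2 (-c) k ψ :=
  ⟨fun v hv => h.1 v hv.mono, fun d hd n v hv => h.2 d hd n v hv.mono⟩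

lemma p2_phiT {c : ℤ} (hc : c = 1 ∨ c = -1) (k : ℕ) : P2 c k (phiT c k) := by
  constructor
  · intro v hv u
    have e : ∀ u : ℤ → ZMod 2, bulk u = embW (fun _ => False) u := fun u => by
      funext i; simp [bulk, embW]
    rw [e, e]
    exact phiT_kern _ hc hv u
  · intro d _ n v hv u
    exact phiT_kern _ hc hv u

lemma kern_empty_iff {c : ℤ} (hc : c = 1 ∨ c = -1) (k : ℕ) (v : ℤ → ZMod 2) :
    Kern (fun _ => False) c k v ↔ dif^[k] v = 0 := by
  obtain ⟨m, hm⟩ := lin_empty k c hc
  unfold Kern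
  rw [hm]
  constructor
  · intro h
    funext i
    simpa using h (i - m) not_false
  · intro h i _
    rw [h]
    rfl

lemma p2_core {S : Type*} [TopologicalSpace S] [DiscreteTopology S]
    (ψ : (ℤ → Option (ZMod 2)) → (ℤ → S)) (cl : (ℤ → S) → (ℤ → S)) (d : ℤ)
    (hd : d = 1 ∨ d = -1) (hψ : Good ψ) (hc : Closing d cl) (k : ℕ)
    (h : P2 (-d) k (cl ∘ ψ)) : P2 (-d) k ψ := by
  have hd' : -d = 1 ∨ -d = -1 := by omega
  have h1 : ∀ n v, Kern (fun i => n ≤ d * i) (-d) k v →
      ∀ u, ψ (emb d n u) = ψ (emb d n (u + v)) :=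
    fun n v hv u => hψ.cancel hd hc (Asym.refl _ _) (asym_emb_emb d n _ _) rfl
      (h.2 d hd n v hv u)
  have h2 : ∀ v, dif^[k] v = 0 → ∀ u, ψ (bulk u) = ψ (bulk (u + v)) := by
    cases k with
    | zero =>
      intro v hv u
      have : v = 0 := hv
      rw [this, add_zero]
    | succ j =>
      have hex : ∀ n : ℕ, ∃ v, ∀ i, ¬ (n : ℤ) ≤ d * i →
          lin (fun i => (n : ℤ) ≤ d * i) d j v i = 1 := fun n => lin_surj hd n j d hd 1
      choose v hv using hex
      obtain ⟨w, φ, hφ, hlim⟩ := CompactSpace.tendsto_subseq v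
      have hg : Tendsto (fun n : ℕ => (φ n : ℤ)) atTop atTop :=
        tendsto_natCast_atTop_atTop.comp hφ.tendsto_atTop
      refine uniserial (fun v => ∀ u, ψ (bulk u) = ψ (bulk (u + v))) ?_ ?_ ?_ j w ?_ ?_
      · intro u
        rw [add_zero]
      · intro a b ha hb u
        rw [ha u, hb (u + a), add_assoc]
      · intro a ha u
        have := hψ.tr_eq (ha (tr (-1) u)) 1
        have e1 : tr 1 (bulk (tr (-1) u)) = bulk u := by
          funext i; simp [bulk]
        have e2 : tr 1 (bulk (tr (-1) u + a)) = bulk (u + tr 1 a) := by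
          funext i; simp [bulk]
        rwa [e1, e2] at this
      · intro u
        refine eq_of_tendsto hψ.cont (tendsto_emb d hg (u := fun _ => u) tendsto_const_nhds)
          (tendsto_emb d hg (u := fun n => u + v (φ n)) (tendsto_const_nhds.add hlim))
          fun n => h1 _ _ (fun i hi => ?_) u
        have hi' : ¬ (φ n : ℤ) ≤ d * (i + -d) := by
          rcases hd with rfl | rfl <;> omega
        simp only [lin, op, neg_neg, if_neg hi', hv _ _ hi, hv _ _ hi']
        rfl
      · obtain ⟨m, hm⟩ := lin_empty j d hd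
        apply tr_injective m
        rw [← hm]
        funext i
        have hev : ∀ᶠ n in atTop, ∀ l ∈ Finset.Icc (i - j) (i + j), v (φ n) l = w l := by
          rw [Filter.eventually_all_finset]
          intro l _
          have h3 := tendsto_pi_nhds.1 hlim l
          rwa [nhds_discrete, tendsto_pure] at h3
        obtain ⟨n, hn1, hn2⟩ := (hev.and (hg.eventually_gt_atTop (d * i + j))).exists
        rw [← lin_local (fun i => (φ n : ℤ) ≤ d * i) j d hd (v (φ n)) w i fun l h3 h4 =>
          ⟨by rcases hd with rfl | rfl <;> omega, hn1 l (Finset.mem_Icc.2 ⟨h3, h4⟩)⟩]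
        exact hv _ _ (by omega)
  refine ⟨fun v hv => h2 v ((kern_empty_iff hd' k v).1 hv), fun d' hd'' n v hv u => ?_⟩
  by_cases hdd : d' = d
  · subst hdd
    exact h1 n v hv u
  · have e : d' = -d := by omega
    subst e
    obtain ⟨m, hm⟩ := lin_empty k (-d) hd'
    have ha : Asym d (dif^[k] v) 0 := by
      refine ⟨1 - n + k + d * m, fun i hi => ?_⟩
      have h3 := congrFun (hm v) (i - m)
      simp only [tr_apply, sub_add_cancel] at h3
      rw [← h3, ← lin_local (fun i => n ≤ -d * i) k (-d) hd' v v (i - m) fun l h4 h5 =>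
        ⟨by rcases hd with rfl | rfl <;> omega, rfl⟩]
      exact hv _ (by rcases hd with rfl | rfl <;> omega)
    obtain ⟨w, hw, hw'⟩ := dif_iter_extend hd k v 0 ha
    refine hψ.cancel hd hc (asym_emb_bulk d n (Asym.refl _ _)) (asym_emb_bulk d n ?_)
      (h2 w hw' u) (h.2 _ hd' n v hv u)
    obtain ⟨N, hN⟩ := hw
    exact ⟨N, fun i hi => by simp only [Pi.add_apply, hN i hi]⟩

lemma not_p2_of_injective {Y : Type*} {ψ : (ℤ → Option (ZMod 2)) → Y}
    (hψ : Function.Injective ψ) {c : ℤ} (hc : c = 1 ∨ c = -1) (k : ℕ) : ¬ P2 c (k + 1) ψ := by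
  intro h
  have h0 : dif 0 = 0 := by
    funext i; simp [dif]
  have h1 : dif 1 = 0 := by
    funext i; exact two_zero 1
  have hv : dif^[k + 1] 1 = 0 := by
    rw [Function.iterate_succ_apply, h1, Function.iterate_fixed h0]
  have := congrFun (bulk_injective (hψ (h.1 1 ((kern_empty_iff hc _ _).2 hv) 0))) 0
  simp at this

theorem exists_mem_not_mem_level (S : Type*) [Fintype S] [TopologicalSpace S]
    [DiscreteTopology S] (hS : 2 ≤ Fintype.card S) (n : ℕ) :
    ∃ f ∈ levelL S (n + 1), f ∉ levelL S n ∪ levelR S n := by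
  obtain ⟨C⟩ := exists_code2 S hS
  refine ⟨phiS C 1 (n + 1), (phiS_mem C _).1, fun hmem => ?_⟩
  refine peel (fun k ψ => ∃ c, (c = 1 ∨ c = -1) ∧ P2 c k ψ) ?_ C.enc C.good_enc
    (fun k ⟨c, hc, h⟩ => not_p2_of_injective C.enc_injective hc k h) n _ hmem (n + 1)
    (Nat.lt_succ_self n) ⟨1, Or.inl rfl, ?_⟩
  · rintro k ψ cl d hd hψ hcl ⟨c, hc, h⟩
    by_cases hcd : c = d
    · subst hcd
      exact ⟨-c, by omega, p2_core ψ cl c hd hψ hcl k h.mono⟩
    · have e : c = -d := by omega
      subst e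
      exact ⟨_, by omega, (p2_core ψ cl d hd hψ hcl _ h).mono⟩
  · have hp := p2_phiT (Or.inl rfl) (n + 1)
    constructor
    · intro v hv u
      simp only [Function.comp, phiS_enc]
      rw [hp.1 v hv u]
    · intro d hd m v hv u
      simp only [Function.comp, phiS_enc]
      rw [hp.2 d hd m v hv u]

end Pool.Agent.MP_2e1455_lc
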